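import Pool.Agent.Helper61.NW.Goals

/-!
# Project NW: packet TWO (finite-by-cyclic groups)
-/

set_option autoImplicit false

namespace Pool.Agent.Helper90.NW

open Pool.Agent.Helper52.Wq2 Pool.Agent.Helper61.NW
open scoped Nat

universe u

theorem two : TwoStmt.{u} := by
  intro Γ _ h S hsurj hK hgen hfin
  classical
  set h' : Γ → ℤ := fun g => Multiplicative.toAdd (h g) with hh'
  have hmul : ∀ a b, h' (a * b) = h' a + h' b := fun a b => by simp [hh']
  have hone : h' 1 = 0 := by simp [hh']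
  have hinv : ∀ a, h' a⁻¹ = - h' a := fun a => by simp [hh']
  have hpow : ∀ a (k : ℤ), h' (a ^ k) = k * h' a := fun a k => by simp [hh']
  have hker : ∀ a, h' a = 0 ↔ a ∈ h.ker := by
    intro a
    rw [MonoidHom.mem_ker, hh']
    exact ⟨fun h1 => Multiplicative.toAdd.injective h1, fun h1 => by simp [h1]⟩
  have hKf : Finite h.ker := hK.to_subtype
  -- a generator with nonzero image
  have hex : ∃ t ∈ S, h' t ≠ 0 := by
    by_contra hcon
    push Not at hcon
    have h1 : (⊤ : Subgroup Γ) ≤ h.ker := by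
      rw [← hgen.1, Subgroup.closure_le]
      intro t ht
      exact (hker t).1 (hcon t ht)
    obtain ⟨g, hg⟩ := hsurj (Multiplicative.ofAdd 1)
    have h2 := (hker g).2 (h1 (Subgroup.mem_top g))
    rw [hh'] at h2
    simp only [hg, toAdd_ofAdd] at h2
    omega
  obtain ⟨t₀, ht₀, ht₀'⟩ := hex
  obtain ⟨t₁, ht₁, hmax₁⟩ := Set.exists_max_image S (fun t => |h' t|) hfin ⟨t₀, ht₀⟩
  have hpos₁ : 0 < |h' t₁| := lt_of_lt_of_le (abs_pos.2 ht₀') (hmax₁ t₀ ht₀)
  obtain ⟨s, hs, hsH⟩ : ∃ s ∈ S, h' s = |h' t₁| := by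
    rcases abs_cases (h' t₁) with ⟨h1, -⟩ | ⟨h1, -⟩
    · exact ⟨t₁, ht₁, h1.symm⟩
    · exact ⟨t₁⁻¹, hgen.2.1 t₁ ht₁, by rw [hinv, h1]⟩
  set H : ℕ := (h' s).toNat with hH
  have hHs : h' s = (H : ℤ) := by
    rw [hH, Int.toNat_of_nonneg]
    rw [hsH]; exact abs_nonneg _
  have hHpos : 0 < H := by
    have : (0 : ℤ) < H := by rw [← hHs, hsH]; exact hpos₁
    exact_mod_cast this
  have hHmax : ∀ t ∈ S, |h' t| ≤ (H : ℤ) := by
    intro t ht
    rw [← hHs, hsH]
    exact hmax₁ t ht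
  -- finite index
  obtain ⟨g₁, hg₁⟩ := hsurj (Multiplicative.ofAdd 1)
  have hg₁' : h' g₁ = 1 := by rw [hh']; simp [hg₁]
  have hsur : Function.Surjective (fun p : h.ker × Fin H =>
      (((p.1 : Γ) * g₁ ^ (p.2 : ℕ) : Γ) : Γ ⧸ Subgroup.zpowers s)) := by
    intro A
    induction A using QuotientGroup.induction_on with
    | H g =>
      set q := h' g / (H : ℤ) with hq
      set r := h' g % (H : ℤ) with hr
      have hHne : (H : ℤ) ≠ 0 := by exact_mod_cast hHpos.ne'
      have hr0 : 0 ≤ r := Int.emod_nonneg _ hHne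
      have hrH : r < H := Int.emod_lt_of_pos _ (by exact_mod_cast hHpos)
      have hdiv : (H : ℤ) * q + r = h' g := Int.mul_ediv_add_emod _ _
      have hrn : ((r.toNat : ℕ) : ℤ) = r := Int.toNat_of_nonneg hr0
      have hk : g * s ^ (-q) * (g₁ ^ r.toNat)⁻¹ ∈ h.ker := by
        rw [← hker, hmul, hmul, hinv, hpow, ← zpow_natCast g₁, hpow, hHs, hg₁', hrn]
        linarith
      refine ⟨(⟨_, hk⟩, ⟨r.toNat, by omega⟩), ?_⟩
      simp only [inv_mul_cancel_right]
      rw [QuotientGroup.eq]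
      refine ⟨q, ?_⟩
      simp only
      group
  have hfinq : Finite (Γ ⧸ Subgroup.zpowers s) := Finite.of_surjective _ hsur
  set n := Nat.card (Γ ⧸ Subgroup.zpowers s) with hn
  have hnpos : 0 < n := Nat.card_pos
  have hKn : Nat.card h.ker ≤ n := by
    apply Nat.card_le_card_of_injective
      (fun k : h.ker => ((k : Γ) : Γ ⧸ Subgroup.zpowers s))
    intro k k' hkk
    simp only at hkk
    rw [QuotientGroup.eq] at hkk
    obtain ⟨i, hi⟩ := hkk
    simp only at hi
    have h1 : h' (s ^ i) = 0 := by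
      rw [hi, hmul, hinv, (hker _).2 k.2, (hker _).2 k'.2]; simp
    rw [hpow, hHs] at h1
    have h2 : i = 0 := by
      rcases mul_eq_zero.1 h1 with h3 | h3
      · exact h3
      · exact absurd h3 (by exact_mod_cast hHpos.ne')
    rw [h2, zpow_zero] at hi
    apply Subtype.ext
    exact (inv_mul_eq_one.1 hi.symm)
  have hKpos : 0 < Nat.card h.ker := Nat.card_pos
  -- `s ^ n!` commutes with the kernel
  have hcomK : ∀ k ∈ h.ker, s ^ (n !) * k = k * s ^ (n !) := by
    intro k hk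
    have h1 : (MulAut.toPerm h.ker (MulAut.conjNormal s)) ^ (Nat.card h.ker)! = 1 := by
      rw [← Nat.card_perm]
      exact pow_card_eq_one'
    have h2 : (MulAut.toPerm h.ker (MulAut.conjNormal s)) ^ (n !) = 1 := by
      obtain ⟨c, hc⟩ := Nat.factorial_dvd_factorial hKn
      rw [hc, pow_mul, h1, one_pow]
    rw [← map_pow, ← map_pow] at h2
    have h3 : (MulAut.toPerm h.ker (MulAut.conjNormal (s ^ n !))) ⟨k, hk⟩ = ⟨k, hk⟩ := by
      rw [h2]; rfl
    have h4 := congrArg Subtype.val h3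
    have h5 : s ^ (n !) * k * (s ^ (n !))⁻¹ = k := h4
    exact mul_inv_eq_iff_eq_mul.1 h5
  refine ⟨h', s, H, n, n ! * Nat.card h.ker, ?_⟩
  refine
    { hom := hmul
      ker := ?_
      gen := hgen
      fin := hfin
      hs := hs
      Hs := hHs
      Hpos := hHpos
      max := hHmax
      card := rfl
      npos := hnpos
      cen := ?_
      mpos := Nat.mul_pos (Nat.factorial_pos _) hKpos
      mle := Nat.mul_le_mul_left _ hKn }
  · refine hK.subset ?_
    intro g hg
    exact (hker g).1 hg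
  · intro g
    set c := g * s ^ (n !) * g⁻¹ * (s ^ (n !))⁻¹ with hc
    have hcK : c ∈ h.ker := by
      rw [← hker, hc, hmul, hmul, hmul, hinv, hinv]
      ring
    have hcc : Commute c (s ^ (n !)) := (hcomK c hcK).symm
    have h1 : g * s ^ (n !) * g⁻¹ = c * s ^ (n !) := by rw [hc]; group
    have h2 : c ^ Nat.card h.ker = 1 := by
      have h3 : (⟨c, hcK⟩ : h.ker) ^ Nat.card h.ker = 1 := pow_card_eq_one'
      exact congrArg Subtype.val h3
    have h4 : g * s ^ (n ! * Nat.card h.ker) * g⁻¹ = s ^ (n ! * Nat.card h.ker) := by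
      calc g * s ^ (n ! * Nat.card h.ker) * g⁻¹
          = (g * s ^ (n !) * g⁻¹) ^ Nat.card h.ker := by rw [conj_pow, pow_mul]
        _ = (c * s ^ (n !)) ^ Nat.card h.ker := by rw [h1]
        _ = c ^ Nat.card h.ker * (s ^ (n !)) ^ Nat.card h.ker := hcc.mul_pow _
        _ = s ^ (n ! * Nat.card h.ker) := by rw [h2, one_mul, ← pow_mul]
    exact mul_inv_eq_iff_eq_mul.1 h4

end Pool.Agent.Helper90.NW
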